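import Pool.Agent.H42.BX.Final

/-!
# The maximal function of a relaxed-convexity class: the box function
-/

set_option autoImplicit false

namespace Pool.Agent.Results.MP_13a5e6_an.BoxFunction

open Pool.Agent.H14RC Pool.Agent.H42.BX

/-- **Main theorem.** For a list `T` of integers `0 < j < m` let
`V m T y = Π_{j ∈ T} (j/m) + y Σ_{j ∈ T} m/j`, let `L m y` be the infimum of the numbers
`V m T y` and `B m x = L m (min x (1-x))`. For every `m ≥ 2`, with `c = m/(m-1)`: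
* `B m` is in the class, it is concave on `[0,1]`, and
  `B m x ≤ F m x ≤ c L m (min x (1-x) / c) ≤ c B m x` for `x ∈ [0,1]`;
* for `y > 0` the infimum is attained by a list with entries in some `{i, i+1}`, and `L m 0 = 0`;
* `F m x = B m x` if `y = min x (1-x)` is `(i/m) Π_{j ∈ T} (j/m)` with an integer `i` and a list
  `T` which attains the minimum at `y`;
* the quasi-cubes: if `x = (i/m)^(p+1) ((i+1)/m)^q ≤ 1/2` and `c' = x ((p+1) m/i + q m/(i+1))` is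
  at most `(k+1) x^(k/(k+1))` for all `k ≠ p+q`, then `F m x = F m (1-x) = c'`;
* the cubes, `q = 0`, with the range explicit:
  `F m ((i/m)^(k+1)) = F m (1 - (i/m)^(k+1)) = (k+1) (i/m)^k`;
* `F m x` is a maximum over the class, `G x ≤ B m x ≤ G x + 5/m²`,
  `F m x ≤ c (G x + 5/m²)` and `F m x ≤ G x + 6/m` on `[0,1]`;
* for `m ≥ 20` some `x` has `F m x ≥ G x + 1/(16 m)`. -/
theorem result (m : ℕ) (hm : 2 ≤ m) :
    (InClass m (B m) ∧ ConcaveOn ℝ (Set.Icc 0 1) (B m) ∧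
      ∀ x : ℝ, 0 ≤ x → x ≤ 1 → B m x ≤ F m x ∧
        F m x ≤ (m : ℝ) / (m - 1) * L m (min x (1 - x) / ((m : ℝ) / (m - 1))) ∧
        (m : ℝ) / (m - 1) * L m (min x (1 - x) / ((m : ℝ) / (m - 1))) ≤
          (m : ℝ) / (m - 1) * B m x) ∧
    ((∀ y : ℝ, 0 < y → ∃ (T : List ℕ) (i : ℕ), Adm m T ∧ (∀ j ∈ T, j = i ∨ j = i + 1) ∧
      L m y = V m T y) ∧ L m 0 = 0) ∧
    (∀ (T : List ℕ) (i : ℕ) (x : ℝ), Adm m T → 0 ≤ x → x ≤ 1 →
      min x (1 - x) = (i : ℝ) / m * P m T →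
      (∀ T' : List ℕ, Adm m T' → V m T (min x (1 - x)) ≤ V m T' (min x (1 - x))) →
      F m x = V m T (min x (1 - x)) ∧ B m x = V m T (min x (1 - x))) ∧
    (∀ (i p q : ℕ) (x c : ℝ), 1 ≤ i → i < m → (q = 0 ∨ i + 1 < m) →
      x = ((i : ℝ) / m) ^ (p + 1) * (((i : ℝ) + 1) / m) ^ q → x ≤ 1 / 2 →
      c = x * (((p : ℝ) + 1) * ((m : ℝ) / i) + q * ((m : ℝ) / ((i : ℝ) + 1))) →
      (∀ k : ℕ, k ≠ p + q → c ≤ ((k : ℝ) + 1) * x ^ ((k : ℝ) / ((k : ℝ) + 1))) →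
      F m x = c ∧ F m (1 - x) = c) ∧
    (∀ i k : ℕ, (((k : ℝ) + 1) / ((k : ℝ) + 2)) ^ (k + 2) ≤ (i : ℝ) / m →
      (i : ℝ) / m ≤ ((k : ℝ) / ((k : ℝ) + 1)) ^ k → ((i : ℝ) / m) ^ (k + 1) ≤ 3 / 4 →
      F m (((i : ℝ) / m) ^ (k + 1)) = ((k : ℝ) + 1) * ((i : ℝ) / m) ^ k ∧
        F m (1 - ((i : ℝ) / m) ^ (k + 1)) = ((k : ℝ) + 1) * ((i : ℝ) / m) ^ k) ∧
    (∀ x : ℝ, 0 ≤ x → x ≤ 1 →
      IsGreatest {y : ℝ | ∃ f : ℝ → ℝ, InClass m f ∧ y = f x} (F m x) ∧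
      G x ≤ B m x ∧ B m x ≤ G x + 5 / (m : ℝ) ^ 2 ∧
      F m x ≤ (m : ℝ) / (m - 1) * (G x + 5 / (m : ℝ) ^ 2) ∧ F m x ≤ G x + 6 / m) ∧
    (20 ≤ m → ∃ x : ℝ, 0 ≤ x ∧ x ≤ 1 ∧ G x + 1 / (16 * m) ≤ F m x) := by
  refine ⟨⟨B_inClass hm, B_concaveOn m, fun x h0 h1 => ⟨B_le_F hm h0 h1, F_le_ccB hm h0 h1⟩⟩,
    ⟨fun y hy => exists_near m hy, L_zero hm⟩,
    fun T i x hT h0 h1 hx hmin => F_node hm hT h0 h1 hx hmin, ?_,
    fun i k h1 h2 h3 => exact_value hm i k h1 h2 h3, fun x h0 h1 =>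
      ⟨F_isGreatest hm h0 h1, G_le_B h0 h1, B_le_G hm h0 h1, F_le_cG hm h0 h1,
        F_le (by omega) fun _ hf => upper hm hf h0 h1⟩, fun h => sharp h⟩
  rintro i p q x c hi him hq hx hhalf hc hk
  subst hx
  subst hc
  have e2 : qc m i (p + 1) q = qx m i (p + 1) q *
      (((p : ℝ) + 1) * ((m : ℝ) / i) + q * ((m : ℝ) / ((i : ℝ) + 1))) := by
    unfold qc
    push_cast
    rfl
  have h := F_quasi (q := q) hm hi him hq hhalf fun k hkk => by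
    rw [e2]
    exact hk k hkk
  rw [e2] at h
  exact h

end Pool.Agent.Results.MP_13a5e6_an.BoxFunction
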