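import Pool.Agent.H27.F5.Top

/-!
# The maximal function of a relaxed-convexity class: `F_5`
-/

set_option autoImplicit false

namespace Pool.Agent.Results.MP_13a5e6_an.F5Exact

open Finset Pool.Agent.H27.F5

/-- **Main theorem.** The maximal function `F_5` is, on `[0,1]`, the Takagi type series of the
partition `0 < 2/5 < 3/5 < 1`: with `rr x` the length of the cell of `x`, `Φ` the piecewise
linear map sending each cell onto `[0,1]`, and `tr x = min (5x/2) 1 (5(1-x)/2)`,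
`F_5 x = ∑ k, rr x * rr (Φ x) * ... * rr (Φ^(k-1) x) * tr (Φ^k x)`.
It is a maximum over the class, it is the unique bounded function on `[0,1]` with the three
functional equations below, and its largest value is `F_5 (1/2) = 5/4`. -/
theorem result :
    (∀ x : ℝ, 0 ≤ x → x ≤ 1 →
      F 5 x = ∑' k : ℕ, (∏ i ∈ range k, rr (Φ^[i] x)) * tr (Φ^[k] x) ∧
      IsGreatest {y : ℝ | ∃ f : ℝ → ℝ, InClass 5 f ∧ y = f x} (F 5 x)) ∧
    (∀ u : ℝ, 0 ≤ u → u ≤ 1 →
      F 5 (2 / 5 * u) = u + 2 / 5 * F 5 u ∧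
      F 5 ((2 + u) / 5) = 1 + F 5 u / 5 ∧
      F 5 ((3 + 2 * u) / 5) = 1 - u + 2 / 5 * F 5 u) ∧
    (∀ g : ℝ → ℝ, (∃ M : ℝ, ∀ x : ℝ, 0 ≤ x → x ≤ 1 → |g x| ≤ M) →
      (∀ u : ℝ, 0 ≤ u → u ≤ 1 →
        g (2 / 5 * u) = u + 2 / 5 * g u ∧
        g ((2 + u) / 5) = 1 + g u / 5 ∧
        g ((3 + 2 * u) / 5) = 1 - u + 2 / 5 * g u) →
      ∀ x : ℝ, 0 ≤ x → x ≤ 1 → g x = F 5 x) ∧
    (∀ x : ℝ, 0 ≤ x → x ≤ 1 → F 5 x ≤ F 5 (1 / 2)) ∧ F 5 (1 / 2) = 5 / 4 := by
  have half : F 5 (1 / 2) = 5 / 4 := by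
    rw [F_eq (by norm_num) (by norm_num)]
    have := TM (u := 1 / 2) (by norm_num) (by norm_num)
    rw [show ((2 : ℝ) + 1 / 2) / 5 = 1 / 2 by norm_num] at this
    linarith
  refine ⟨fun x h0 h1 => ⟨F_eq h0 h1, ?_⟩, fun u h0 h1 => ⟨?_, ?_, ?_⟩, ?_, fun x h0 h1 => ?_,
    half⟩
  · rw [F_eq h0 h1]; exact isGreatest_T h0 h1
  · rw [F_eq (by linarith) (by linarith), F_eq h0 h1, TL h0 h1]
  · rw [F_eq (by linarith) (by linarith), F_eq h0 h1, TM h0 h1]
  · rw [F_eq (by linarith) (by linarith), F_eq h0 h1, TR h0 h1]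
  · rintro g ⟨M, hM⟩ hg
    have key : ∀ a : I, |g a - T a| ≤ 0 := by
      apply contract (M := M + 5 / 4) (l := 2 / 5) _ (by norm_num) (by norm_num)
      · intro c hc0 h a
        have h' : ∀ {x : ℝ}, 0 ≤ x → x ≤ 1 → |g x - T x| ≤ c := fun {x} h0 h1 => h ⟨x, h0, h1⟩
        rcases cells a.2.1 a.2.2 with ⟨u, u0, u1, hu⟩ | ⟨u, u0, u1, hu⟩ | ⟨u, u0, u1, hu⟩
        · have := abs_le.1 (h' u0 u1)
          rw [hu, TL u0 u1, (hg u u0 u1).1, abs_le]
          constructor <;> linarith [this.1, this.2]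
        · have := abs_le.1 (h' u0 u1)
          rw [hu, TM u0 u1, (hg u u0 u1).2.1, abs_le]
          constructor <;> linarith [this.1, this.2]
        · have := abs_le.1 (h' u0 u1)
          rw [hu, TR u0 u1, (hg u u0 u1).2.2, abs_le]
          constructor <;> linarith [this.1, this.2]
      · intro a
        have h1 := abs_le.1 (hM a a.2.1 a.2.2)
        have h2 := T_nonneg a.2.1 a.2.2
        have h3 := T_le a.2.1 a.2.2
        rw [abs_le]
        constructor <;> linarith [h1.1, h1.2]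
    intro x h0 h1
    rw [F_eq h0 h1]
    have := key ⟨x, h0, h1⟩
    simp only [abs_nonpos_iff, sub_eq_zero] at this
    exact this
  · rw [half, F_eq h0 h1]; exact T_le h0 h1

end Pool.Agent.Results.MP_13a5e6_an.F5Exact
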