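import Pool.Agent.H50.MF.Joint

/-!
# The maximal function of a relaxed-convexity class: the functional equation in the middle
-/

set_option autoImplicit false

namespace Pool.Agent.Results.MP_13a5e6_an.MiddleEquation

open Finset Pool.Agent.H14RC Pool.Agent.H50.MF

/-- **The middle equation.** Let `Mid m` be the interval `[c/m, 1 - c/m]`, `c = ⌊m/4⌋ + 4`.
* For `m ≥ 10^6` the maximal function satisfies `F_m x = 1 + F_m {m x} / m` on `Mid m`, and so
  `F_m x = ∑_{i<n} m^{-i} + m^{-n} F_m {m^n x}` as long as the orbit of `x` stays in `Mid m`.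
* For `m ≥ 28` the right side is an upper bound, and with the limit function `G` instead of the
  last `F_m` a lower bound.
* For `m ≥ 28` the maximum of `F_m` is `m/(m-1)`, and it is attained at every point whose whole
  orbit stays in `Mid m`.
* For `m ≥ 28` and `0 ≤ x ≤ 1/4 - 3/m` we have `F_m x < 1` (so the equation fails there, since `F_m ≥ 0`). -/
theorem result :
    (∀ m : ℕ, 1000000 ≤ m → ∀ (n : ℕ) (x : ℝ), 0 ≤ x → x ≤ 1 →
      (∀ i < n, Mid m (Int.fract ((m : ℝ) ^ i * x))) →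
      F m x = ∑ i ∈ range n, (1 / (m : ℝ)) ^ i +
        (1 / (m : ℝ)) ^ n * F m (Int.fract ((m : ℝ) ^ n * x))) ∧
    (∀ m : ℕ, 28 ≤ m →
      (∀ (n : ℕ) (x : ℝ), 0 ≤ x → x ≤ 1 →
        (∀ i < n, Mid m (Int.fract ((m : ℝ) ^ i * x))) →
        ∑ i ∈ range n, (1 / (m : ℝ)) ^ i +
          (1 / (m : ℝ)) ^ n * G (Int.fract ((m : ℝ) ^ n * x)) ≤ F m x ∧
        F m x ≤ ∑ i ∈ range n, (1 / (m : ℝ)) ^ i +
          (1 / (m : ℝ)) ^ n * F m (Int.fract ((m : ℝ) ^ n * x))) ∧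
      IsGreatest (F m '' Set.Icc 0 1) ((m : ℝ) / (m - 1)) ∧
      (∀ x : ℝ, 0 ≤ x → x ≤ 1 → (∀ i : ℕ, Mid m (Int.fract ((m : ℝ) ^ i * x))) →
        F m x = (m : ℝ) / (m - 1)) ∧
      (∀ x : ℝ, 0 ≤ x → x ≤ 1 / 4 - 3 / m → F m x < 1)) :=
  ⟨fun _ hm n _ h0 h1 hx => exact_orbit hm n h0 h1 hx, fun _ hm =>
    ⟨fun n _ h0 h1 hx => ⟨low hm n h0 h1 hx, up (by omega) n h0 h1⟩, max_eq hm,
      fun _ h0 h1 hx => orbit hm h0 h1 hx, fun _ h0 h1 => lt_one hm h0 h1⟩⟩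

end Pool.Agent.Results.MP_13a5e6_an.MiddleEquation
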