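import Pool.Agent.H86.ZN.EffStep

/-!
# The maximal function of a relaxed-convexity class: the exact recursion in all zones
-/

set_option autoImplicit false

namespace Pool.Agent.Results.MP_13a5e6_an.ZoneRecursion

open Pool.Agent.H14RC Pool.Agent.H14.ZN

/-- **Main theorem (zone recursion).** `F m x` is the supremum at `x` of the functions in the class,
`bk k = (k/(k+1))^(k(k+1))`, zone `K` is `(bk (K+1), bk K)`, `w = min x (1-x)`.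
`Step m K x v y`: `w` lies in zone `K` and in the cell `(p, i)`, `p ≥ 1`, `0 ≤ i ≤ K`:
`Q ≤ m^(K+1) w < Q'` with `Q = p^(K+1-i) (p+1)^i`, `Q' = p^(K-i) (p+1)^(i+1)`;
`v = ((K+1-i) p^(K-i) (p+1)^i + i p^(K+1-i) (p+1)^(i-1)) / m^K` and `y = m w - Q/m^K`.
* For every `ε > 0` and all large `m`: at every `x ∈ [ε, 1-ε]` with `|w - bk k| ≥ ε` for all
  `k ≥ 1` there is a step to some `y ∈ [0,1]`, and `F m x = v + F m y / m`.
* For every `n` and `δ > 0` and all large `m`, outside a set of measure at most `δ`: `n` steps can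
  be made, `F m x = A + F m z / m^n` with `A = v_0 + v_1/m + ... + v_(n-1)/m^(n-1)`, and
  `|F m x - A| ≤ 2/m^n`.
* `A` and the last point `z` are determined by `m`, `n`, `x`.
* For `m ≥ 10^9` and `0.0901 ≤ w ≤ 0.249` there is a step, with `K = 1`, and
  `F m x = v + F m y / m`. -/
theorem result :
    (∀ ε : ℝ, 0 < ε → ∃ M : ℕ, ∀ m : ℕ, M ≤ m → ∀ x : ℝ, ε ≤ x → x ≤ 1 - ε →
      (∀ k : ℕ, 1 ≤ k → ε ≤ |min x (1 - x) - bk k|) →
      ∃ (K : ℕ) (v y : ℝ), Step m K x v y ∧ 0 ≤ y ∧ y ≤ 1 ∧ F m x = v + F m y / m) ∧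
    (∀ (n : ℕ) (δ : ℝ), 0 < δ → ∃ M : ℕ, ∀ m : ℕ, M ≤ m →
      MeasureTheory.volume {x : ℝ | 0 ≤ x ∧ x ≤ 1 ∧ ¬ ∃ A z : ℝ, Steps m n x A z ∧ 0 ≤ z ∧ z ≤ 1 ∧
        F m x = A + F m z / (m : ℝ) ^ n ∧ |F m x - A| ≤ 2 / (m : ℝ) ^ n} ≤ ENNReal.ofReal δ) ∧
    (∀ (m n : ℕ) (x A z A' z' : ℝ), 1 ≤ m → Steps m n x A z → Steps m n x A' z' → A = A' ∧ z = z') ∧
    (∀ m : ℕ, 1000000000 ≤ m → ∀ x : ℝ, 901 / 10000 ≤ min x (1 - x) → min x (1 - x) ≤ 249 / 1000 →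
      ∃ v y : ℝ, Step m 1 x v y ∧ 0 ≤ y ∧ y ≤ 1 ∧ F m x = v + F m y / m) :=
  ⟨zone_recursion.1, zone_recursion.2.1, zone_recursion.2.2,
    fun _ hm _ h0 h1 => Pool.Agent.H86.ZN.eff_step hm h0 h1⟩

end Pool.Agent.Results.MP_13a5e6_an.ZoneRecursion
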